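import Pool.Agent.Helper53.AJ.Defs
import Pool.Agent.Helper6.MC.PumpD

/-!
# Pumping down and up
-/

set_option autoImplicit false

namespace Pool.Agent.Helper53.AJ

open FirstOrder Pool.Agent.Helper20.Spectra Pool.Agent.Helper58.QD Pool.Agent.Helper14.SS
open Pool.Agent.Helper31.QD (Au)
open Pool.Agent.Helper40.MCM
open Pool.Agent.Helper38.MC (mp bp used ext bp_eq mp_mp inv_choice ext_inv ext_res mp_inj)
open Pool.Agent.Helper6.MC (pumpXM exists_mfm)
open Pool.Agent.Helper29.MW (MFm MSat MSat.iso)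

variable {S : Type} {ar : S → ℕ}

section dec

variable {V : Type} {q t : ℕ} (u : Fin q × Fin t → V)

/-- the points outside a family and the blocks -/
noncomputable def cutE (hu : Function.Injective u) :
    {z : V // ¬ z ∈ Set.range u} ⊕ (Fin q × Fin t) ≃ V := by
  classical
  exact ((Equiv.sumComm _ _).trans (Equiv.sumCongr (Equiv.ofInjective u hu) (Equiv.refl _))).trans
      (Equiv.sumCompl (fun z => z ∈ Set.range u))

lemma cutE_inl (hu : Function.Injective u) (z : {z : V // ¬ z ∈ Set.range u}) :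
    cutE u hu (Sum.inl z) = z.1 := by
  unfold cutE
  simp

lemma cutE_inr (hu : Function.Injective u) (p : Fin q × Fin t) :
    cutE u hu (Sum.inr p) = u p := by
  unfold cutE
  simp

/-- the structure on the cut universe -/
def cutR (hu : Function.Injective u) (R : Interp S ar V) :
    Interp S ar ({z : V // ¬ z ∈ Set.range u} ⊕ (Fin q × Fin t)) :=
  fun s w => R s (cutE u hu ∘ w)

variable {u}

lemma cutR_bp {R : Interp S ar V} (hu : Hm R u) (π : Equiv.Perm (Fin q)) :
    Au (cutR u hu.1 R) (bp π) := by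
  intro s w
  have h := hu.2 π ((cutE u hu.1).symm.trans ((bp π).trans (cutE u hu.1))) (by
    intro i x
    rw [← cutE_inr u hu.1]
    show cutE u hu.1 (bp π ((cutE u hu.1).symm (cutE u hu.1 (Sum.inr (i, x))))) = _
    rw [Equiv.symm_apply_apply, bp_eq, ← cutE_inr u hu.1]
    rfl) (by
    intro z hz
    have hz' : z = cutE u hu.1 (Sum.inl ⟨z, fun ⟨p, hp⟩ => hz p hp⟩) :=
      (cutE_inl u hu.1 ⟨z, fun ⟨p, hp⟩ => hz p hp⟩).symm
    rw [hz']
    show cutE u hu.1 (bp π ((cutE u hu.1).symm (cutE u hu.1 (Sum.inl _)))) = _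
    rw [Equiv.symm_apply_apply, bp_eq]
    rfl)
  show R s (cutE u hu.1 ∘ (bp π ∘ w)) ↔ R s (cutE u hu.1 ∘ w)
  rw [← h s (cutE u hu.1 ∘ w)]
  have : ((cutE u hu.1).symm.trans ((bp π).trans (cutE u hu.1))) ∘ (cutE u hu.1 ∘ w) =
      cutE u hu.1 ∘ (bp π ∘ w) := by
    funext a
    show cutE u hu.1 (bp π ((cutE u hu.1).symm (cutE u hu.1 (w a)))) = _
    rw [Equiv.symm_apply_apply]
    rfl
  rw [this]

/-- the points outside a block -/
noncomputable def offE (hu : Function.Injective u) (i : Fin q) :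
    {z : V // ¬ z ∈ Set.range u} ⊕ ({j : Fin q // j ≠ i} × Fin t) ≃ off u i :=
  Equiv.ofBijective (fun p => match p with
    | Sum.inl z => ⟨z.1, fun x h => z.2 ⟨_, h⟩⟩
    | Sum.inr p => ⟨u (p.1.1, p.2), fun x h => p.1.2 (congrArg Prod.fst (hu h)).symm⟩) (by
    constructor
    · rintro (z | ⟨j, x⟩) (z' | ⟨j', x'⟩) h
      · have h1 : z.1 = z'.1 := congrArg (Subtype.val : off u i → V) h
        rw [Subtype.ext h1]
      · have h1 : z.1 = u (j'.1, x') := congrArg (Subtype.val : off u i → V) h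
        exact absurd ⟨_, h1.symm⟩ z.2
      · have h1 : u (j.1, x) = z'.1 := congrArg (Subtype.val : off u i → V) h
        exact absurd ⟨_, h1⟩ z'.2
      · have h1 : u (j.1, x) = u (j'.1, x') := congrArg (Subtype.val : off u i → V) h
        have h2 := hu h1
        have h3 : j = j' := Subtype.ext (congrArg Prod.fst h2)
        have h4 : x = x' := congrArg Prod.snd h2
        rw [h3, h4]
    · rintro ⟨z, hz⟩
      by_cases h : z ∈ Set.range u
      · obtain ⟨⟨j, x⟩, rfl⟩ := h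
        have hj : j ≠ i := by
          rintro rfl
          exact hz x rfl
        exact ⟨Sum.inr (⟨j, hj⟩, x), rfl⟩
      · exact ⟨Sum.inl ⟨z, h⟩, rfl⟩)

lemma offE_eq (hu : Function.Injective u) (i : Fin q)
    (p : {z : V // ¬ z ∈ Set.range u} ⊕ ({j : Fin q // j ≠ i} × Fin t)) :
    ((offE hu i p : off u i) : V) = cutE u hu (mp Subtype.val p) := by
  rcases p with z | ⟨j, x⟩
  · show z.1 = cutE u hu (Sum.inl z)
    rw [cutE_inl]
  · show u (j.1, x) = cutE u hu (Sum.inr (j.1, x))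
    rw [cutE_inr]

end dec

/-- F1: pumping down -/
theorem down [Finite S] (φ : SFm (RelLang S ar) 0 0) (k : ℕ) : ∃ q₀ : ℕ, ∀ (V : Type) [Fintype V]
    (R : Interp S ar V), SatM φ R → ∀ q t : ℕ, q₀ ≤ q → t ≤ k → ∀ u : Fin q × Fin t → V, Hm R u →
    ∀ (i : Fin q) [Fintype (off u i)], SatM φ (rs R (off u i)) := by
  classical
  obtain ⟨ψ, hψ⟩ := exists_mfm φ
  choose f hf1 hf using fun t : ℕ => pumpXM (Fin t) ψ
  refine ⟨(Finset.range (k + 1)).sup f + 1, fun V _ R hM q t hq ht u hu i _ => ?_⟩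
  have hft : f t ≤ (Finset.range (k + 1)).sup f :=
    Finset.le_sup (f := f) (Finset.mem_range.2 (by omega))
  rw [hψ] at hM ⊢
  have hM0 : MSat (cutR u hu.1 R) ψ := by
    have h := (MSat.iso R (cutE u hu.1).symm ψ).1 hM
    exact h
  have h1 := (hf t _ (Fin q) {j : Fin q // j ≠ i} (cutR u hu.1 R) (cutR_bp hu)
    (by rw [Nat.card_eq_fintype_card, Fintype.card_fin]; omega)
    (by
      rw [Nat.card_eq_fintype_card]
      have h2 : Fintype.card {j : Fin q // j ≠ i} = q - 1 := by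
        rw [Fintype.card_subtype_compl, Fintype.card_fin, Fintype.card_subtype_eq]
      rw [h2]
      omega)).1 hM0
  have h2 := (MSat.iso _ (offE hu.1 i) ψ).1 h1
  have h3 : (fun s w => ext (cutR u hu.1 R) {j : Fin q // j ≠ i} s
      fun a => (offE hu.1 i).symm (w a)) = rs R (off u i) := by
    funext s w
    apply propext
    show ext (cutR u hu.1 R) {j : Fin q // j ≠ i} s ((offE hu.1 i).symm ∘ w) ↔
      R s (fun a => (w a : V))
    have h4 : (fun a => (w a : V)) = cutE u hu.1 ∘ (mp Subtype.val ∘ ((offE hu.1 i).symm ∘ w)) := by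
      funext a
      show (w a : V) = cutE u hu.1 (mp Subtype.val ((offE hu.1 i).symm (w a)))
      rw [← offE_eq hu.1 i, Equiv.apply_symm_apply]
    rw [h4]
    constructor
    · rintro ⟨g, hg1, hg2⟩
      exact (inv_choice (cutR_bp hu) _ hg1 (Subtype.val_injective.injOn)).1 hg2
    · intro h
      exact ⟨Subtype.val, Subtype.val_injective.injOn, h⟩
  rw [h3] at h2
  exact h2

/-- F2: pumping up -/
theorem up [Finite S] (φ : SFm (RelLang S ar) 0 0) (t : ℕ) : ∃ q₀ : ℕ, ∀ (V : Type) [Fintype V]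
    (R : Interp S ar V), SatM φ R → ∀ q : ℕ, q₀ ≤ q → ∀ u : Fin q × Fin t → V, Hm R u → ∀ j : ℕ,
    ∃ (V' : Type) (_ : Fintype V') (R' : Interp S ar V') (u' : Fin (q + j) × Fin t → V') (ι : V → V'),
      SatM φ R' ∧ Fintype.card V' = Fintype.card V + j * t ∧ Hm R' u' ∧ Function.Injective ι ∧
      (∀ s w, R' s (ι ∘ w) ↔ R s w) ∧ ∀ i x, ι (u (i, x)) = u' (Fin.castAdd j i, x) := by
  classical
  obtain ⟨ψ, hψ⟩ := exists_mfm φ
  obtain ⟨q₀, hq₀, h⟩ := pumpXM (Fin t) ψ
  refine ⟨q₀, fun V _ R hM q hq u hu j => ?_⟩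
  have : Nonempty (Fin q) := ⟨⟨0, by omega⟩⟩
  have hM0 : MSat (cutR u hu.1 R) ψ := by
    have h := (MSat.iso R (cutE u hu.1).symm ψ).1 ((hψ V R).1 hM)
    exact h
  have h1 := (h _ (Fin q) (Fin (q + j)) (cutR u hu.1 R) (cutR_bp hu)
    (by rw [Nat.card_eq_fintype_card, Fintype.card_fin]; omega)
    (by rw [Nat.card_eq_fintype_card, Fintype.card_fin]; omega)).1 hM0
  refine ⟨{z : V // ¬ z ∈ Set.range u} ⊕ (Fin (q + j) × Fin t), inferInstance,
    ext (cutR u hu.1 R) (Fin (q + j)), Sum.inr, fun z => mp (Fin.castAdd j) ((cutE u hu.1).symm z),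
    (hψ _ _).2 h1, ?_, ⟨Sum.inr_injective, ?_⟩, ?_, ?_, ?_⟩
  · have h2 := Fintype.card_congr (cutE u hu.1)
    rw [Fintype.card_sum, Fintype.card_prod, Fintype.card_fin, Fintype.card_fin] at h2
    rw [Fintype.card_sum, Fintype.card_prod, Fintype.card_fin, Fintype.card_fin, ← h2]
    ring
  · intro π σ h2 h3
    have h4 : σ = bp π := by
      ext1 z
      rw [bp_eq]
      rcases z with z | ⟨i, x⟩
      · exact h3 _ (fun p hp => Sum.inr_ne_inl hp)
      · exact h2 i x
    rw [h4]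
    exact ext_inv π
  · exact (mp_inj _ (Fin.castAdd_injective q j)).comp (cutE u hu.1).symm.injective
  · intro s w
    have h2 := ext_res (cutR_bp hu) (Fin.castAdd j) (Fin.castAdd_injective q j) (s := s)
      ((cutE u hu.1).symm ∘ w)
    refine h2.trans ?_
    show R s (cutE u hu.1 ∘ ((cutE u hu.1).symm ∘ w)) ↔ R s w
    have h3 : cutE u hu.1 ∘ ((cutE u hu.1).symm ∘ w) = w := by
      funext a
      simp
    rw [h3]
  · intro i x
    show mp (Fin.castAdd j) ((cutE u hu.1).symm (u (i, x))) = _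
    have h2 : (cutE u hu.1).symm (u (i, x)) = Sum.inr (i, x) := by
      rw [Equiv.symm_apply_eq, cutE_inr]
    rw [h2]
    rfl

end Pool.Agent.Helper53.AJ
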